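import Pool.Agent.Lib.MP_7c6760_co.Golden

/-! Two graphs on `n` vertices whose Ore-degrees have product at most the golden ratio times `n`
pack. -/

namespace Pool.Agent.Lib.MP_7c6760_co.Old.GoldenRatio

/-- The Ore-degree of `G`: the maximum of `d(x) + d(y)` over the edges `xy` of `G`, and `0` if `G`
has no edges. -/
def oreDegree {n : ℕ} (G : SimpleGraph (Fin n)) [DecidableRel G.Adj] : ℕ :=
  Finset.univ.sup (fun p : Fin n × Fin n =>
    if G.Adj p.1 p.2 then G.degree p.1 + G.degree p.2 else 0)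

open Pool.Agent.MP_7c6760_co in
theorem oreLe_oreDegree {n : ℕ} (G : SimpleGraph (Fin n)) [DecidableRel G.Adj] :
    OreLe G (oreDegree G) := by
  intro x y hxy
  have hd : ∀ z, dg G z = G.degree z := by
    intro z
    unfold dg nb
    rw [← SimpleGraph.card_neighborFinset_eq_degree]
    congr 1
    ext w; simp
  have h := Finset.le_sup (f := fun p : Fin n × Fin n =>
    if G.Adj p.1 p.2 then G.degree p.1 + G.degree p.2 else 0) (Finset.mem_univ (x, y))
  simp only [hxy, if_true] at h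
  rw [hd, hd]
  exact h

/-- If `θ(G₁) θ(G₂) ≤ φ n`, where `φ = (1 + √5) / 2`, then `G₁` and `G₂` pack. -/
theorem result (n : ℕ) (G₁ G₂ : SimpleGraph (Fin n)) [DecidableRel G₁.Adj] [DecidableRel G₂.Adj]
    (h : (oreDegree G₁ : ℝ) * (oreDegree G₂ : ℝ) ≤ Real.goldenRatio * (n : ℝ)) :
    ∃ σ : Equiv.Perm (Fin n), ∀ a b : Fin n, G₁.Adj a b → ¬ G₂.Adj (σ a) (σ b) := by
  refine Pool.Agent.MP_7c6760_co.packs (oreLe_oreDegree G₁) (oreLe_oreDegree G₂) ?_
  rw [Fintype.card_fin]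
  have h1 : (0 : ℝ) ≤ (oreDegree G₁ : ℝ) * (oreDegree G₂ : ℝ) := by positivity
  have h2 := Real.goldenRatio_sq
  have h3 := Real.one_lt_goldenRatio
  have h4 : (0 : ℝ) ≤ (n : ℝ) := by positivity
  have h5 : 0 ≤ (Real.goldenRatio - 1) * (n : ℝ) := mul_nonneg (by linarith) h4
  have h6 : ((oreDegree G₁ : ℝ) * (oreDegree G₂ : ℝ)) ^ 2
      ≤ (oreDegree G₁ : ℝ) * (oreDegree G₂ : ℝ) * n + (n : ℝ) ^ 2 := by
    nlinarith [mul_nonneg (sub_nonneg.mpr h)
      (add_nonneg h1 h5)]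
  exact_mod_cast h6

end Pool.Agent.Lib.MP_7c6760_co.Old.GoldenRatio
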