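import Pool.Agent.Lib.MP_7c6760_co.Asym

/-! The conjecture on the product of the Ore-degrees holds asymptotically when both Ore-degrees
are at most a small constant times `n`. -/

namespace Pool.Agent.Lib.MP_7c6760_co.Old.SparseAsymptotic

/-- The Ore-degree of `G`: the maximum of `d(x) + d(y)` over the edges `xy` of `G`, and `0` if `G`
has no edges. -/
def oreDegree {n : ℕ} (G : SimpleGraph (Fin n)) [DecidableRel G.Adj] : ℕ :=
  Finset.univ.sup (fun p : Fin n × Fin n =>
    if G.Adj p.1 p.2 then G.degree p.1 + G.degree p.2 else 0)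

open Pool.Agent.MP_7c6760_co in
theorem oreLe_oreDegree {n : ℕ} (G : SimpleGraph (Fin n)) [DecidableRel G.Adj] :
    OreLe G (oreDegree G) := by
  intro x y hxy
  have hd : ∀ z, dg G z = G.degree z := by
    intro z
    unfold dg nb
    rw [← SimpleGraph.card_neighborFinset_eq_degree]
    congr 1
    ext w; simp
  have h := Finset.le_sup (f := fun p : Fin n × Fin n =>
    if G.Adj p.1 p.2 then G.degree p.1 + G.degree p.2 else 0) (Finset.mem_univ (x, y))
  simp only [hxy, if_true] at h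
  rw [hd, hd]
  exact h

/-- For every `ε > 0` there is `δ > 0` such that two graphs on `n` vertices whose Ore-degrees are
at most `δ n` and have product at most `(2 - ε) n` pack. -/
theorem result : ∀ ε : ℝ, 0 < ε → ∃ δ : ℝ, 0 < δ ∧ ∀ (n : ℕ) (G₁ G₂ : SimpleGraph (Fin n))
    [DecidableRel G₁.Adj] [DecidableRel G₂.Adj],
    (oreDegree G₁ : ℝ) ≤ δ * (n : ℝ) → (oreDegree G₂ : ℝ) ≤ δ * (n : ℝ) →
    (oreDegree G₁ : ℝ) * (oreDegree G₂ : ℝ) ≤ (2 - ε) * (n : ℝ) →
    ∃ σ : Equiv.Perm (Fin n), ∀ a b : Fin n, G₁.Adj a b → ¬ G₂.Adj (σ a) (σ b) := by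
  intro ε hε
  obtain ⟨δ, hδ, h⟩ := Pool.Agent.MP_7c6760_co.asym hε
  refine ⟨δ, hδ, ?_⟩
  intro n G₁ G₂ _ _ h1 h2 h3
  exact h (Fin n) G₁ G₂ (oreDegree G₁) (oreDegree G₂) (oreLe_oreDegree G₁) (oreLe_oreDegree G₂)
    (by rw [Fintype.card_fin]; exact h1) (by rw [Fintype.card_fin]; exact h2)
    (by rw [Fintype.card_fin]; exact h3)

end Pool.Agent.Lib.MP_7c6760_co.Old.SparseAsymptotic
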